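import Pool.Agent.Helper49.OT.Defs
import Pool.Agent.Helper59.OT.Num

/-!
OT-EX2: holomorphic maps from a finite cover of the Oeljeklaus–Toma threefold `M` to a complex
`2`-torus are constant (`MP_398e1f_an`).  The facts of the pieces KEY and LIFT are hypotheses here
(see `Ex2Final` for the final form).
-/

open scoped Manifold ContDiff Topology
open Set Filter

noncomputable section

namespace HolPH.OT

namespace Ex2

/-! ### Discrete subgroups of `ℂ²` -/

theorem torus_covering (Λ : Submodule ℤ C2) (hΛ : DiscreteTopology Λ) :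
    IsCoveringMap (Submodule.Quotient.mk : C2 → C2 ⧸ Λ) := by
  have h : IsDiscrete (Λ.toAddSubgroup : Set C2) := ⟨hΛ⟩
  exact (AddSubgroup.isAddQuotientCoveringMap_of_comm (G := C2) Λ.toAddSubgroup h).isCoveringMap

theorem exists_nhds_eq_zero (Λ : Submodule ℤ C2) (hΛ : DiscreteTopology Λ) :
    ∃ t : Set C2, t ∈ 𝓝 (0 : C2) ∧ ∀ z ∈ t, z ∈ Λ → z = 0 := by
  have h : IsOpen ({0} : Set Λ) := isOpen_discrete _
  obtain ⟨t, ht, hpre⟩ := isOpen_induced_iff.1 h
  refine ⟨t, ht.mem_nhds ?_, fun z hz hzΛ => ?_⟩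
  · have : (0 : Λ) ∈ ((↑) : Λ → C2) ⁻¹' t := by rw [hpre]; rfl
    exact this
  · have : (⟨z, hzΛ⟩ : Λ) ∈ ((↑) : Λ → C2) ⁻¹' t := hz
    rw [hpre] at this
    exact congrArg Subtype.val this

/-- a function with values in `Λ` which is continuous at a point is locally constant there -/
theorem eventually_const {Λ : Submodule ℤ C2} (hΛ : DiscreteTopology Λ) {Y : Type*}
    [TopologicalSpace Y] {δ : Y → C2} {y : Y} (hc : ContinuousAt δ y)
    (hmem : ∀ᶠ z in 𝓝 y, δ z ∈ Λ) : ∀ᶠ z in 𝓝 y, δ z = δ y := by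
  obtain ⟨t, ht, h⟩ := exists_nhds_eq_zero Λ hΛ
  have h1 : Tendsto (fun z => δ z - δ y) (𝓝 y) (𝓝 (δ y - δ y)) :=
    hc.tendsto.sub tendsto_const_nhds
  rw [sub_self] at h1
  have h2 : δ y ∈ Λ := hmem.self_of_nhds
  filter_upwards [h1 ht, hmem] with z hz hzΛ
  exact sub_eq_zero.1 (h _ hz (sub_mem hzΛ h2))

/-! ### Powers in `Γ` -/

/-- the translation by `a` -/
def tr (a : Lat) : Gam := ⟨0, a⟩

/-- the multiplication by `u` -/
def mu : Gam := ⟨1, 0⟩

theorem tr_pow (a : Lat) (k : ℕ) : (tr a ^ k).n = 0 ∧ ((tr a ^ k).a : C3) = (k : ℤ) • (a : C3) := by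
  induction k with
  | zero => simp
  | succ k ih =>
    rw [pow_succ]
    refine ⟨by rw [mul_n, ih.1]; rfl, ?_⟩
    rw [mul_a, ih.1, ih.2]
    simp [tr, add_smul, add_comm]

theorem mu_pow (k : ℕ) : (mu ^ k).n = k ∧ ((mu ^ k).a : C3) = 0 := by
  induction k with
  | zero => simp
  | succ k ih =>
    rw [pow_succ]
    refine ⟨by rw [mul_n, ih.1]; push_cast; rfl, ?_⟩
    rw [mul_a, ih.2]
    simp [mu]

theorem tr_pow_smul (a : Lat) (k : ℕ) (x : X) :
    ((tr a ^ k • x : X) : C3) = x + (k : ℤ) • (a : C3) := by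
  rw [smul_coe, (tr_pow a k).1, (tr_pow a k).2]
  simp

theorem mu_pow_smul (k : ℕ) (x : X) :
    ((mu ^ k • x : X) : C3) = ((u ^ k : C3ˣ) : C3) * x := by
  rw [smul_coe, (mu_pow k).1, (mu_pow k).2, add_zero, zpow_natCast]

/-- `u ^ d - 1` is invertible -/
theorem exists_mul_sub (d : ℕ) (hd : 1 ≤ d) (w : C3) :
    ∃ z : C3, ((u ^ d : C3ˣ) : C3) * z - z = w := by
  have key : ∀ c : ℂ, c ≠ 1 → ∀ b : ℂ, c * (b / (c - 1)) - b / (c - 1) = b := by
    intro c hc b
    have : c - 1 ≠ 0 := sub_ne_zero.2 hc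
    field_simp
  have hd0 : d ≠ 0 := by omega
  have n1 : ((u ^ d : C3ˣ) : C3).1 ≠ 1 := by
    have h := u_zpow_fst d
    rw [zpow_natCast] at h
    rw [h]
    have h2 : 1 < U1 ^ d := one_lt_pow₀ one_lt_U1 hd0
    intro h3
    have : (U1 ^ (d : ℤ) : ℝ) = 1 := by exact_mod_cast h3
    rw [zpow_natCast] at this
    linarith
  have n2 : ((u ^ d : C3ˣ) : C3).2.1 ≠ 1 := by
    have h := zpow_snd_fst u d
    rw [zpow_natCast, zpow_natCast] at h
    rw [h]
    intro h3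
    have h4 : ‖(u : C3).2.1 ^ d‖ = 1 := by rw [h3]; simp
    rw [norm_pow] at h4
    have : U2 ^ d < 1 := pow_lt_one₀ U2_pos.le U2_lt_one hd0
    exact absurd h4 (ne_of_lt this)
  have n3 : ((u ^ d : C3ˣ) : C3).2.2 ≠ 1 := by
    have h := zpow_snd_snd u d
    rw [zpow_natCast, zpow_natCast] at h
    rw [h]
    intro h3
    have h4 : ‖(u : C3).2.2 ^ d‖ = 1 := by rw [h3]; simp
    rw [norm_pow] at h4
    have : U3 ^ d < 1 := pow_lt_one₀ U3_pos.le U3_lt_one hd0
    exact absurd h4 (ne_of_lt this)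
  refine ⟨(w.1 / (((u ^ d : C3ˣ) : C3).1 - 1), w.2.1 / (((u ^ d : C3ˣ) : C3).2.1 - 1),
    w.2.2 / (((u ^ d : C3ˣ) : C3).2.2 - 1)), ?_⟩
  refine Prod.ext ?_ (Prod.ext ?_ ?_)
  · exact key _ n1 _
  · exact key _ n2 _
  · exact key _ n3 _

/-- A `ℂ`-linear map which is constant on `{(u^d - 1) x | x ∈ X}` vanishes. -/
theorem linear_eq_zero (d : ℕ) (hd : 1 ≤ d) (T : C3 →L[ℂ] C2) (c : C2)
    (h : ∀ x ∈ X, T (((u ^ d : C3ˣ) : C3) * x - x) = c) : T = 0 := by
  have h0 : ∀ w : C3, 0 ≤ w.1.im → T (((u ^ d : C3ˣ) : C3) * w - w) = 0 := by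
    intro w hw
    set x0 : C3 := (Complex.I, 0, 0) with hx0
    have hx : x0 ∈ X := by simp [mem_X, hx0]
    have hxw : x0 + w ∈ X := by
      simp only [mem_X, hx0, Prod.fst_add, Complex.add_im, Complex.I_im]
      linarith
    have h1 := h _ hx
    have h2 := h _ hxw
    have h3 : ((u ^ d : C3ˣ) : C3) * (x0 + w) - (x0 + w) =
      (((u ^ d : C3ˣ) : C3) * x0 - x0) + (((u ^ d : C3ˣ) : C3) * w - w) := by ring
    rw [h3, map_add, h1] at h2
    simpa using h2
  have h1 : ∀ w : C3, T (((u ^ d : C3ˣ) : C3) * w - w) = 0 := by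
    intro w
    rcases le_total 0 w.1.im with hw | hw
    · exact h0 w hw
    · have h2 := h0 (-w) (by simpa using hw)
      have h3 : ((u ^ d : C3ˣ) : C3) * (-w) - (-w) = -(((u ^ d : C3ˣ) : C3) * w - w) := by ring
      rw [h3, map_neg, neg_eq_zero] at h2
      exact h2
  refine ContinuousLinearMap.ext fun w => ?_
  obtain ⟨z, rfl⟩ := exists_mul_sub d hd w
  rw [h1]
  rfl

instance : ContractibleSpace X := convex_X.contractibleSpace ⟨_, (Classical.arbitrary X).2⟩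
instance : LocallyPathConnectedSpace X := X.isOpen.locallyPathConnectedSpace

end Ex2

open Ex2

section
variable {M' : Type*} [TopologicalSpace M'] [ChartedSpace C3 M']

theorem Ex2.continuous_P {Λ : Submodule ℤ C2} {P : M' → C2 ⧸ Λ}
    (hP : IsHolomorphicToTorus Λ P) : Continuous P := by
  rw [continuous_iff_continuousAt]
  intro x
  obtain ⟨P', h1, h2⟩ := hP x
  have h3 : Continuous (Submodule.Quotient.mk : C2 → C2 ⧸ Λ) := continuous_quot_mk
  exact (h3.continuousAt.comp h1.continuousAt).congr (h2.mono fun y hy => hy.symm)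

end

section
variable {M' : Type*} [TopologicalSpace M'] [ChartedSpace C3 M'] {p : M' → M}

/-- a lift of `P ∘ q` to `ℂ²` is holomorphic -/
theorem Ex2.lift_holo {Λ : Submodule ℤ C2} (hΛ : DiscreteTopology Λ) {P : M' → C2 ⧸ Λ}
    (hP : IsHolomorphicToTorus Λ P) {q : X → M'} (hq : IsLocalDiffeomorph I3 I3 ω q)
    {H : X → C2} (hH : Continuous H) (hl : ∀ x, (Submodule.Quotient.mk (H x) : C2 ⧸ Λ) = P (q x)) :
    ContMDiff I3 𝓘(ℂ, C2) ω H := by
  intro x
  obtain ⟨P', h1, h2⟩ := hP (q x)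
  have hqx : ContMDiffAt I3 I3 ω q x := (hq.contMDiff) x
  have h3 : ContMDiffAt I3 𝓘(ℂ, C2) ω (P' ∘ q) x := h1.comp x hqx
  have h4 : ∀ᶠ z in 𝓝 x, P (q z) = Submodule.Quotient.mk (P' (q z)) :=
    hqx.continuousAt.eventually h2
  have h5 : ∀ᶠ z in 𝓝 x, H z - P' (q z) ∈ Λ := by
    filter_upwards [h4] with z hz
    rw [← hl z] at hz
    exact (Submodule.Quotient.eq Λ).1 hz
  have h6 : ∀ᶠ z in 𝓝 x, H z - P' (q z) = H x - P' (q x) :=
    eventually_const hΛ (hH.continuousAt.sub h3.continuousAt) h5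
  have h7 : H =ᶠ[𝓝 x] fun z => (P' ∘ q) z + (H x - P' (q x)) := by
    filter_upwards [h6] with z hz
    rw [← hz]
    simp
  exact (h3.add contMDiffAt_const).congr_of_eventuallyEq h7

/-- `P` is constant on the image of the lift -/
theorem Ex2.const_on_lift (key : ∀ G : C3 → C3 →L[ℂ] C2, DifferentiableOn ℂ G X →
      ∀ d : ℕ, 1 ≤ d → (∀ a ∈ Lat, ∀ x ∈ X, G (x + (d : ℤ) • a) = G x) →
      ∀ x ∈ X, ∀ y ∈ X, G x = G y)
    (Λ : Submodule ℤ C2)
    (hΛ : DiscreteTopology Λ) (P : M' → C2 ⧸ Λ) (hP : IsHolomorphicToTorus Λ P)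
    {q : X → M'} (hqc : Continuous q) (hq : IsLocalDiffeomorph I3 I3 ω q)
    {d : ℕ} (hd : 1 ≤ d) (hper : ∀ (g : Gam) (x : X), q (g ^ d • x) = q x) (x y : X) :
    P (q x) = P (q y) := by
  classical
  -- the lift
  obtain ⟨H, hH⟩ : ∃ H : C(X, C2), ∀ z, (Submodule.Quotient.mk (H z) : C2 ⧸ Λ) = P (q z) := by
    obtain ⟨e₀, he₀⟩ := Submodule.Quotient.mk_surjective Λ (P (q x))
    obtain ⟨H, ⟨-, h2⟩, -⟩ := (torus_covering Λ hΛ).existsUnique_continuousMap_lifts
      (⟨fun z => P (q z), (continuous_P hP).comp hqc⟩ : C(X, C2 ⧸ Λ)) x e₀ he₀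
    exact ⟨H, fun z => congrFun h2 z⟩
  have hHs : ContMDiff I3 𝓘(ℂ, C2) ω H := lift_holo hΛ hP hq H.continuous hH
  -- extension to `ℂ³`
  set K : C3 → C2 := fun z => if h : z ∈ X then H ⟨z, h⟩ else 0 with hK
  have hKX : ∀ z : X, K z = H z := fun z => dif_pos z.2
  have hKs : ∀ z ∈ X, ContDiffAt ℂ ω K z := by
    intro z hz
    have h1 : ContMDiffAt I3 𝓘(ℂ, C2) ω (fun w : X => K w) ⟨z, hz⟩ := by
      have : (fun w : X => K w) = H := funext hKX
      rw [this]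
      exact hHs ⟨z, hz⟩
    exact (contMDiffAt_subtype_iff.1 h1).contDiffAt
  have hXo : IsOpen (X : Set C3) := X.isOpen
  -- translations
  have hinv : ∀ g : Gam, ∃ c : C2, ∀ z : X, H (g ^ d • z) - H z = c := by
    intro g
    have hmem : ∀ z : X, H (g ^ d • z) - H z ∈ Λ := by
      intro z
      rw [← Submodule.Quotient.eq, hH, hH, hper]
    have hc : Continuous fun z : X => H (g ^ d • z) - H z :=
      (H.continuous.comp (continuous_const_smul _)).sub H.continuous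
    have hc' : Continuous fun z : X => (⟨H (g ^ d • z) - H z, hmem z⟩ : Λ) := hc.subtype_mk _
    refine ⟨H (g ^ d • x) - H x, fun z => ?_⟩
    exact congrArg Subtype.val (PreconnectedSpace.constant inferInstance hc' (x := z) (y := x))
  -- the derivative
  have hGd : DifferentiableOn ℂ (fderiv ℂ K) X := by
    intro z hz
    have h1 : ContDiffAt ℂ 1 (fderiv ℂ K) z :=
      ContDiffAt.fderiv_right (hKs z hz) (by norm_num)
    exact (h1.differentiableAt one_ne_zero).differentiableWithinAt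
  have hGper : ∀ a ∈ Lat, ∀ z ∈ X, fderiv ℂ K (z + (d : ℤ) • a) = fderiv ℂ K z := by
    intro a ha z hz
    obtain ⟨c, hc⟩ := hinv (tr ⟨a, ha⟩)
    have h1 : ∀ w ∈ X, K (w + (d : ℤ) • a) = K w + c := by
      intro w hw
      have h2 := hc ⟨w, hw⟩
      have h3 := tr_pow_smul ⟨a, ha⟩ d ⟨w, hw⟩
      rw [← hKX, ← hKX, h3] at h2
      rw [← h2]
      simp
    rw [← fderiv_comp_add_right]
    have h4 : (fun w => K (w + (d : ℤ) • a)) =ᶠ[𝓝 z] fun w => K w + c := by
      filter_upwards [hXo.mem_nhds hz] with w hw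
      exact h1 w hw
    rw [h4.fderiv_eq]
    exact fderiv_add_const c
  have hconst := key (fderiv ℂ K) hGd d hd hGper
  -- `K` is affine
  obtain ⟨T, c, hT⟩ : ∃ (T : C3 →L[ℂ] C2) (c : C2), ∀ z ∈ X, K z = T z + c := by
    refine ⟨fderiv ℂ K x, K x - fderiv ℂ K x x, ?_⟩
    intro z hz
    have h1 : ∀ w ∈ (X : Set C3), HasFDerivWithinAt (fun w => K w - fderiv ℂ K x w) (0 : C3 →L[ℂ] C2)
        X w := by
      intro w hw
      have h2 : HasFDerivAt K (fderiv ℂ K w) w :=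
        ((hKs w hw).differentiableAt (by norm_num)).hasFDerivAt
      have h3 := h2.sub (fderiv ℂ K x).hasFDerivAt
      rw [hconst w hw x x.2, sub_self] at h3
      exact h3.hasFDerivWithinAt
    have h2 := convex_X.is_const_of_fderivWithin_eq_zero (𝕜 := ℂ)
      (f := fun w => K w - fderiv ℂ K x w)
      (fun w hw => (h1 w hw).differentiableWithinAt)
      (fun w hw => (h1 w hw).fderivWithin (hXo.uniqueDiffWithinAt hw)) hz x.2
    have h3 : K z = fderiv ℂ K x z + (K x - fderiv ℂ K x x) := by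
      rw [← h2]; abel
    exact h3
  -- invariance under `u ^ d`
  have hT0 : T = 0 := by
    obtain ⟨c', hc'⟩ := hinv mu
    refine linear_eq_zero d hd T c' fun w hw => ?_
    have h1 := hc' ⟨w, hw⟩
    have h2 := mu_pow_smul d ⟨w, hw⟩
    have h3 : ((u ^ d : C3ˣ) : C3) * w ∈ X := by
      have := (mu ^ d • (⟨w, hw⟩ : X)).2
      rw [h2] at this
      exact this
    rw [← hKX, ← hKX, h2, hT _ h3, hT _ hw] at h1
    rw [map_sub, ← h1]
    abel
  rw [← hH x, ← hH y, ← hKX, ← hKX, hT _ x.2, hT _ y.2, hT0]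
  rfl

/-- no nonconstant holomorphic map from a finite cover of `M` to a complex `2`-torus, given the
facts of KEY and LIFT -/
theorem holomorphic_to_torus_const_of [ConnectedSpace M']
    (key : ∀ G : C3 → C3 →L[ℂ] C2, DifferentiableOn ℂ G X →
      ∀ d : ℕ, 1 ≤ d → (∀ a ∈ Lat, ∀ x ∈ X, G (x + (d : ℤ) • a) = G x) →
      ∀ x ∈ X, ∀ y ∈ X, G x = G y)
    (lift : ∀ y : M', ∃ (x : X) (q : X → M'), Continuous q ∧ q x = y ∧
      IsLocalDiffeomorph I3 I3 ω q ∧ ∃ d : ℕ, 1 ≤ d ∧ ∀ (g : Gam) (x : X), q (g ^ d • x) = q x)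
    (Λ : Submodule ℤ C2)
    (hΛ : DiscreteTopology Λ) (P : M' → C2 ⧸ Λ) (hP : IsHolomorphicToTorus Λ P) (x y : M') :
    P x = P y := by
  have hloc : IsLocallyConstant P := by
    rw [IsLocallyConstant.iff_eventually_eq]
    intro z
    obtain ⟨x₀, q, hqc, hq0, hq, d, hd, hper⟩ := lift z
    have ho : IsOpen (range q) := hq.isOpen_range
    filter_upwards [ho.mem_nhds ⟨x₀, hq0⟩] with w hw
    obtain ⟨x₁, rfl⟩ := hw
    rw [← hq0]
    exact Ex2.const_on_lift key Λ hΛ P hP hqc hq hd hper x₁ x₀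
  exact hloc.apply_eq_of_isPreconnected isPreconnected_univ (mem_univ _) (mem_univ _)

end

end HolPH.OT
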