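import Pool.Agent.Helper10.OT.Ex2
import Pool.Agent.Helper67.OT.Lift
import Pool.Agent.Helper88.OT.Key
import Pool.Agent.Helper49.OT.Lat1

/-!
OT-EX2, final form: holomorphic maps from a finite cover of the Oeljeklaus–Toma threefold `M` to a
complex `2`-torus are constant (`MP_398e1f_an`).
-/

open scoped Manifold ContDiff Topology
open Set Filter

noncomputable section

namespace HolPH.OT

variable {M' : Type*} [TopologicalSpace M'] [ChartedSpace C3 M'] [IsManifold I3 ω M']
  {p : M' → M}

/-- no nonconstant holomorphic map from a finite cover of `M` to a complex `2`-torus -/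
theorem holomorphic_to_torus_const [ConnectedSpace M'] (hp : IsFiniteCover p) (Λ : Submodule ℤ C2)
    (hΛ : DiscreteTopology Λ) (P : M' → C2 ⧸ Λ) (hP : IsHolomorphicToTorus Λ P) (x y : M') :
    P x = P y := by
  refine holomorphic_to_torus_const_of (fun G hG d hd h => key_of_cover Lat_cover G hG d hd h) (fun z => ?_) Λ hΛ P hP
    x y
  obtain ⟨x₀, q, hqc, hpq, hq0⟩ := exists_lift hp z
  exact ⟨x₀, q, hqc, hq0, lift_localDiffeomorph hp hqc hpq, lift_period hp hqc hpq⟩

end HolPH.OT
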